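import Pool.Agent.N455.CS.Uni
import Pool.Agent.N455.CS.Law

/-!
# Terminator terms for random closed oligomorphic algebras

Let `𝔹` be a homogeneous structure in a finite relational signature. We consider random relations
`R_0, ..., R_{t-1}` of large arities `k_0, ..., k_{t-1} ≥ n`, which are invariant under the
automorphism group of `𝔹`, with an arbitrary joint law which has finite energy `exp (-a n)`: given
everything else, every orbit of `k_j`-tuples is contained in `R_j` with conditional probability between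
`exp (-a n)` and `1 - exp (-a n)`. Outside of an event of probability at most `t C exp (-δ exp (c n))`
ALL the structures `𝔸` which contain some `R_j` and whose other relations are some `R_i` or have arity
at most `r` satisfy: the algebra whose operations are the polymorphisms of `𝔸` is closed oligomorphic,
and it has terminator terms or it satisfies no nontrivial set of linear identities.
-/

namespace Pool.Agent.Results.MP_7ddfd8_al.RandomAlgebras

open Pool.Agent.W994.AR
open Pool.Agent.N455.CS (Omega rel IsLaw prob FiniteEnergy productLaw gibbsLaw)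

variable {B : Type}

/-- The `n`-ary polymorphisms of `𝔸`. -/
def Pol {ι : Type} {ar : ι → ℕ} (𝔸 : Str ι ar B) (n : ℕ) : Set ((Fin n → B) → B) :=
  {f | IsPol 𝔸 f}

/-- The sets `C n` of `n`-ary operations form a closed oligomorphic clone: they contain the projections,
are closed under composition and under pointwise limits, and finitely many tuples meet all the orbits
of the invertible unary operations on `k`-tuples. -/
structure ClosedOligomorphic (C : ∀ n : ℕ, Set ((Fin n → B) → B)) : Prop where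
  proj : ∀ (n : ℕ) (i : Fin n), (fun x => x i) ∈ C n
  comp : ∀ (n m : ℕ) (f : (Fin n → B) → B) (g : Fin n → (Fin m → B) → B), f ∈ C n →
    (∀ i, g i ∈ C m) → (fun x => f (fun i => g i x)) ∈ C m
  closed : ∀ (n : ℕ) (f : (Fin n → B) → B),
    (∀ F : Finset (Fin n → B), ∃ f' ∈ C n, ∀ x ∈ F, f' x = f x) → f ∈ C n
  oligo : ∀ k : ℕ, ∃ S : Finset (Fin k → B), ∀ x : Fin k → B, ∃ s ∈ S, ∃ g : Equiv.Perm B,
    (fun y : Fin 1 → B => g (y 0)) ∈ C 1 ∧ (fun y : Fin 1 → B => g⁻¹ (y 0)) ∈ C 1 ∧
    (fun i => g (s i)) = x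

/-- A variable, or an operation symbol `f` applied to variables. -/
inductive LinTerm (S : Type) (arS : S → ℕ) where
  | var (v : ℕ)
  | app (f : S) (v : Fin (arS f) → ℕ)

/-- The value of a linear term for the interpretation `I` of the symbols and the values `x` of the
variables. -/
def LinTerm.eval {S : Type} {arS : S → ℕ} (I : ∀ f : S, (Fin (arS f) → B) → B) (x : ℕ → B) :
    LinTerm S arS → B
  | .var v => x v
  | .app f v => I f (fun i => x (v i))

/-- The variable which is the value of a linear term if every symbol `f` is interpreted as the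
projection to the argument with the number `p f`. -/
def LinTerm.proj {S : Type} {arS : S → ℕ} (p : ∀ f : S, Fin (arS f)) : LinTerm S arS → ℕ
  | .var v => v
  | .app f v => v (p f)

/-- The set `E` of linear identities is satisfied by operations in `C`. -/
def Satisfies (C : ∀ n : ℕ, Set ((Fin n → B) → B)) {S : Type} {arS : S → ℕ}
    (E : Set (LinTerm S arS × LinTerm S arS)) : Prop :=
  ∃ I : ∀ f : S, (Fin (arS f) → B) → B, (∀ f, I f ∈ C (arS f)) ∧
    ∀ s ∈ E, ∀ x : ℕ → B, s.1.eval I x = s.2.eval I x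

/-- The set `E` of linear identities is nontrivial: it is not satisfied by projections. -/
def NontrivialSet {S : Type} {arS : S → ℕ} (E : Set (LinTerm S arS × LinTerm S arS)) : Prop :=
  ¬ ∃ p : ∀ f : S, Fin (arS f), ∀ s ∈ E, s.1.proj p = s.2.proj p

/-- There are terminator terms `c`, `c_i = c1 i`, `c_ij = c2 i j` in `C`. -/
def HasTerminator (C : ∀ n : ℕ, Set ((Fin n → B) → B)) : Prop :=
  ∃ (c : (Fin 3 → B) → B) (c1 : Fin 2 → (Fin 3 → B) → B) (c2 : Fin 2 → Fin 2 → (Fin 3 → B) → B),
    c ∈ C 3 ∧ (∀ i, c1 i ∈ C 3) ∧ (∀ i j, c2 i j ∈ C 3) ∧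
    ∀ x y : B, c ![x, y, x] = c1 0 ![x, x, y] ∧ c ![y, x, x] = c1 1 ![x, x, y] ∧
      ∀ i : Fin 2, c1 i ![x, y, x] = c2 i 0 ![x, x, y] ∧ c1 i ![y, x, x] = c2 i 1 ![x, x, y] ∧
        c2 i 0 ![x, y, x] = c2 i 1 ![x, y, x] ∧ c2 i 0 ![y, x, x] = c2 i 1 ![y, x, x]

/-- There are terminator terms, or no nontrivial set of linear identities is satisfied. -/
def Good (C : ∀ n : ℕ, Set ((Fin n → B) → B)) : Prop :=
  HasTerminator C ∨ ∀ (S : Type) (arS : S → ℕ) (E : Set (LinTerm S arS × LinTerm S arS)),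
    Satisfies C E → ¬ NontrivialSet E

/-- The statement for all the structures which consist of finitely many invariant relations `Γ` of arity
at most `r` and of at least one of the relations `R j`. -/
def AllGood {σ : Type} {arB : σ → ℕ} (𝔹 : Str σ arB B) (r : ℕ) {t : ℕ} {k : Fin t → ℕ}
    (R : ∀ j, InvRel (autGroup 𝔹) (Fin (k j))) : Prop :=
  ∀ (ι : Type) [Finite ι] (arΓ : ι → ℕ) (Γ : Str ι arΓ B), (∀ l, arΓ l ≤ r) →
    (∀ l, Invar (autGroup 𝔹) (Γ l)) → ∀ (s : ℕ) (e : Fin s → Fin t), 1 ≤ s →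
      ClosedOligomorphic (Pol (expand Γ (fun j => (R (e j)).1))) ∧
      Good (Pol (expand Γ (fun j => (R (e j)).1)))

theorem closedOligomorphic {G : Subgroup (Equiv.Perm B)} (hfin : ∀ k, Finite (Orb G (Fin k)))
    {ι : Type} {ar : ι → ℕ} {𝔸 : Str ι ar B} (hA : ∀ i, Invar G (𝔸 i)) :
    ClosedOligomorphic (Pol 𝔸) := by
  classical
  have hG : ∀ g ∈ G, (fun y : Fin 1 → B => g (y 0)) ∈ Pol 𝔸 1 := by
    intro g hg i v hv
    exact hA i g hg (v 0) (hv 0)
  refine ⟨?_, ?_, ?_, ?_⟩
  · intro n i l v hv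
    exact hv i
  · intro n m f g hf hg l v hv
    exact hf l (fun i j => g i (fun a => v a j)) (fun i => hg i l v hv)
  · intro n f hf l v hv
    obtain ⟨f', hf', hF⟩ := hf (Finset.univ.image fun j : Fin (ar l) => fun a => v a j)
    have h1 := hf' l v hv
    have h2 : (fun j => f (fun a => v a j)) = fun j => f' (fun a => v a j) := by
      funext j
      exact (hF _ (Finset.mem_image_of_mem _ (Finset.mem_univ j))).symm
    rw [h2]
    exact h1
  · intro k
    have := hfin k
    have := Fintype.ofFinite (Orb G (Fin k))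
    refine ⟨Finset.univ.image (fun o : Orb G (Fin k) => o.out), fun x => ?_⟩
    refine ⟨(Quotient.mk (orb G (Fin k)) x).out, Finset.mem_image_of_mem _ (Finset.mem_univ _), ?_⟩
    have h0 : Quotient.mk (orb G (Fin k)) (Quotient.mk (orb G (Fin k)) x).out =
        Quotient.mk (orb G (Fin k)) x := Quotient.out_eq _
    obtain ⟨g, hg, h⟩ : Same G (Quotient.mk (orb G (Fin k)) x).out x := Quotient.exact h0
    exact ⟨g, hG g hg, hG g⁻¹ (G.inv_mem hg), funext h⟩

theorem good_of_const {ι : Type} {ar : ι → ℕ} {𝔸 : Str ι ar B} (h : ConstEndo 𝔸) :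
    Good (Pol 𝔸) := by
  left
  obtain ⟨b, hb⟩ := h
  have hu : (fun _ : Fin 3 → B => b) ∈ Pol 𝔸 3 := fun i v hv => hb i (v 0) (hv 0)
  exact ⟨fun _ => b, fun _ _ => b, fun _ _ _ => b, hu, fun _ => hu, fun _ _ => hu,
    fun x y => ⟨rfl, rfl, fun i => ⟨rfl, rfl, rfl, rfl⟩⟩⟩

theorem good_of_max [Nontrivial B] {ι : Type} {ar : ι → ℕ} {𝔸 : Str ι ar B}
    {G : Subgroup (Equiv.Perm B)} (h : PPMax G 𝔸) : Good (Pol 𝔸) := by
  classical
  right
  rintro S arS E ⟨I, hI, hE⟩ hN
  obtain ⟨a, b, hab⟩ := exists_pair_ne B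
  have hinj : ∀ e : B → B, InClosure G e → Function.Injective e := by
    intro e he x y hxy
    obtain ⟨g, _, hg⟩ := he {x, y}
    rw [hg x (by simp), hg y (by simp)] at hxy
    exact g.injective hxy
  choose p e he hpe using fun f => h.2.2 (arS f) (I f) (hI f)
  apply hN
  refine ⟨p, fun s hs => ?_⟩
  -- every linear term is an injective map of one variable
  have hterm : ∀ u : LinTerm S arS, ∃ w : B → B, Function.Injective w ∧
      ∀ x : ℕ → B, u.eval I x = w (x (u.proj p)) := by
    intro u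
    cases u with
    | var v => exact ⟨id, Function.injective_id, fun x => rfl⟩
    | app f v => exact ⟨e f, hinj _ (he f), fun x => hpe f _⟩
  obtain ⟨w₁, hw₁, h1⟩ := hterm s.1
  obtain ⟨w₂, hw₂, h2⟩ := hterm s.2
  by_contra hne
  have h3 := hE s hs (fun _ => a)
  have h4 := hE s hs (fun v => if v = s.1.proj p then b else a)
  rw [h1, h2] at h3 h4
  have h5 : (if s.2.proj p = s.1.proj p then b else a) = a := if_neg (fun h => hne h.symm)
  simp only [if_true] at h4
  rw [h5] at h4
  rw [← h3] at h4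
  exact hab (hw₁ h4).symm

/-- **Q1 holds for almost all structures, for all laws of finite energy.** -/
theorem result {σ : Type} [Nontrivial B] [Finite σ] {arB : σ → ℕ} (𝔹 : Str σ arB B)
    (h𝔹 : Homogeneous 𝔹) :
    -- the bound for random relations
    (∀ r : ℕ, ∃ C c δ a : ℝ, 0 < C ∧ 0 < c ∧ 0 < δ ∧ 0 < a ∧
      ∀ (t : ℕ) (k : Fin t → ℕ) (n : ℕ), (∀ j, n ≤ k j) →
        ∀ μ : Set (Omega (autGroup 𝔹) k) → ℝ, IsLaw μ → FiniteEnergy (Real.exp (-(a * n))) μ →
          prob μ (fun Θ => ¬ AllGood 𝔹 r (fun j => rel (autGroup 𝔹) k Θ j)) ≤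
            t * C * Real.exp (-(δ * Real.exp (c * n)))) ∧
    -- independent orbits: sparse relations, random perturbations of given relations
    (∀ (Ω : Type) [Finite Ω] (p : Ω → ℝ) (ε : ℝ), 0 ≤ ε → (∀ o, ε ≤ p o ∧ p o ≤ 1 - ε) →
      IsLaw (productLaw p) ∧ FiniteEnergy ε (productLaw p)) ∧
    -- Gibbs laws
    (∀ (Ω : Type) [Finite Ω] (H : Set Ω → ℝ) (L : ℝ),
      (∀ (Θ : Set Ω) (o : Ω), |H (insert o Θ) - H (Θ \ {o})| ≤ L) →
        IsLaw (gibbsLaw H) ∧ FiniteEnergy (1 / (1 + Real.exp L)) (gibbsLaw H)) := by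
  classical
  have hfin : ∀ k, Finite (Orb (autGroup 𝔹) (Fin k)) := fun k => hom_finite h𝔹 (Fin k)
  refine ⟨?_, ?_, ?_⟩
  · intro r
    obtain ⟨M, hM, hdich⟩ := Pool.Agent.N455.CS.dich_of_rich 𝔹 h𝔹 r
    obtain ⟨C, c, δ, a, hC, hc, hδ, ha, hbd⟩ :=
      Pool.Agent.N455.CS.weight_bound (autGroup 𝔹) M hM hfin
    refine ⟨C, c, δ, a, hC, hc, hδ, ha, ?_⟩
    intro t k n hn μ hμ hfe
    have : Finite (Omega (autGroup 𝔹) k) := by
      have := fun j => hfin (k j)
      infer_instance
    have := Fintype.ofFinite (Omega (autGroup 𝔹) k)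
    have h1 := hbd t k n hn (fun R : Finset (Omega (autGroup 𝔹) k) => μ (R : Set _))
      (fun R => hμ.1 _) hfe.fe
    rw [hμ.sum, mul_one] at h1
    refine le_trans (Pool.Agent.N455.CS.prob_le hμ.1 ?_) h1
    intro R hR hrich
    apply hR
    intro ι _ arΓ Γ hr hΓ s e hs
    have hA : ∀ i, Invar (autGroup 𝔹) (expand Γ (fun j =>
        (rel (autGroup 𝔹) k (R : Set (Omega (autGroup 𝔹) k)) (e j)).1) i) := by
      rintro (l | j)
      · exact hΓ l
      · exact (rel (autGroup 𝔹) k (R : Set (Omega (autGroup 𝔹) k)) (e j)).2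
    refine ⟨closedOligomorphic hfin hA, ?_⟩
    rcases hdich ι arΓ Γ hr hΓ s hs (fun j => k (e j))
      (fun j => rel (autGroup 𝔹) k (R : Set (Omega (autGroup 𝔹) k)) (e j))
      (fun j => hrich (e j)) with h | h
    · exact good_of_const h
    · exact good_of_max h
  · intro Ω _ p ε hε hp
    exact Pool.Agent.N455.CS.product_law p ε hε hp
  · intro Ω _ H L hH
    exact Pool.Agent.N455.CS.gibbs_law H L hH

end Pool.Agent.Results.MP_7ddfd8_al.RandomAlgebras
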